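import Mathlib
import Pool.Agent.Helper35.MS.StE

/-!
Project MS (MP_925021_gt), module PPV: mean value inequality for the positive part
-/

set_option autoImplicit false

namespace Helper45.MS

open Helper35.MS Helper35.PI Helper35.PI2 Helper32.CL
open scoped ContDiff Manifold Topology ENNReal BigOperators
open MeasureTheory Set Filter

private noncomputable def ps (η : ℝ) (x : ℝ) : ℝ := (x + Real.sqrt (x ^ 2 + η ^ 2)) / 2

private lemma ps_pos {η : ℝ} (hη : 0 < η) (x : ℝ) : 0 < x ^ 2 + η ^ 2 := by positivity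

private lemma ps_smooth {η : ℝ} (hη : 0 < η) : ContDiff ℝ ∞ (ps η) := by
  unfold ps
  refine (contDiff_id.add ?_).div_const 2
  exact ((contDiff_id.pow 2).add contDiff_const).sqrt fun x => (ps_pos hη x).ne'

private lemma ps_abs (η x : ℝ) : |x| ≤ Real.sqrt (x ^ 2 + η ^ 2) := by
  refine Real.abs_le_sqrt ?_
  nlinarith [sq_nonneg η]

private lemma ps_lower (η x : ℝ) : max 0 x ≤ ps η x := by
  unfold ps
  have h := ps_abs η x
  have h1 := neg_abs_le x
  have h2 := le_abs_self x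
  refine max_le ?_ ?_
  · linarith
  · linarith

private lemma ps_upper {η : ℝ} (hη : 0 < η) (x : ℝ) : ps η x ≤ max 0 x + η := by
  unfold ps
  have h : Real.sqrt (x ^ 2 + η ^ 2) ≤ |x| + η := by
    rw [Real.sqrt_le_left (by positivity)]
    have := sq_abs x
    nlinarith [abs_nonneg x]
  rcases le_total 0 x with hx | hx
  · rw [max_eq_right hx]
    rw [abs_of_nonneg hx] at h
    linarith
  · rw [max_eq_left hx]
    rw [abs_of_nonpos hx] at h
    linarith

private lemma ps_sqrt {η : ℝ} (hη : 0 < η) (x : ℝ) :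
    HasDerivAt (fun x => Real.sqrt (x ^ 2 + η ^ 2)) (x / Real.sqrt (x ^ 2 + η ^ 2)) x := by
  have h1 : HasDerivAt (fun x : ℝ => x ^ 2 + η ^ 2) (2 * x) x := by
    have := (hasDerivAt_pow 2 x).add_const (η ^ 2)
    simpa using this
  have h2 := h1.sqrt (ps_pos hη x).ne'
  refine h2.congr_deriv ?_
  rw [mul_div_mul_left _ _ (by norm_num)]

private lemma ps_deriv {η : ℝ} (hη : 0 < η) :
    deriv (ps η) = fun x => (1 + x / Real.sqrt (x ^ 2 + η ^ 2)) / 2 := by
  funext x
  exact (((hasDerivAt_id x).add (ps_sqrt hη x)).div_const 2).deriv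

private lemma ps_deriv_nn {η : ℝ} (hη : 0 < η) (x : ℝ) : 0 ≤ deriv (ps η) x := by
  rw [ps_deriv hη]
  have hs : 0 < Real.sqrt (x ^ 2 + η ^ 2) := Real.sqrt_pos.2 (ps_pos hη x)
  have h1 : -1 ≤ x / Real.sqrt (x ^ 2 + η ^ 2) := by
    rw [le_div_iff₀ hs]
    have := ps_abs η x
    have := neg_abs_le x
    linarith
  simp only
  linarith

private lemma ps_deriv2_nn {η : ℝ} (hη : 0 < η) (x : ℝ) : 0 ≤ deriv (deriv (ps η)) x := by
  rw [ps_deriv hη]
  have hs : 0 < Real.sqrt (x ^ 2 + η ^ 2) := Real.sqrt_pos.2 (ps_pos hη x)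
  have h1 : HasDerivAt (fun x => (1 + x / Real.sqrt (x ^ 2 + η ^ 2)) / 2)
      ((1 * Real.sqrt (x ^ 2 + η ^ 2) - x * (x / Real.sqrt (x ^ 2 + η ^ 2))) /
        Real.sqrt (x ^ 2 + η ^ 2) ^ 2 / 2) x :=
    ((((hasDerivAt_id x).div (ps_sqrt hη x) hs.ne').const_add 1).div_const 2)
  rw [h1.deriv]
  have h2 : 0 ≤ 1 * Real.sqrt (x ^ 2 + η ^ 2) - x * (x / Real.sqrt (x ^ 2 + η ^ 2)) := by
    have h3 : 1 * Real.sqrt (x ^ 2 + η ^ 2) - x * (x / Real.sqrt (x ^ 2 + η ^ 2)) =
        η ^ 2 / Real.sqrt (x ^ 2 + η ^ 2) := by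
      field_simp
      rw [Real.sq_sqrt (ps_pos hη x).le]
      ring
    rw [h3]
    positivity
  positivity

theorem hPPV (hMVI : StMVI) (hEVC : StEVC) (hMUJ : StMUJ) : StPPV := by
  intro N M _ _ _ _ _ _ _ J F c χ hS u b l t₁ t₀ hE ht hJ hb p
  have ht1 : t₁ ∈ J := hJ (left_mem_Icc.2 ht.le)
  obtain ⟨s, -, hmu⟩ := hMUJ 2 N M J F c χ hS.toJ
  obtain ⟨-, -, hint⟩ := hmu t₁ ht1
  have hK : 0 < 1 / 4 / (t₀ - t₁) := by
    have : 0 < t₀ - t₁ := by linarith
    positivity
  have hcont : Continuous fun q => max 0 (u q t₁ - l) :=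
    continuous_const.max ((hE.sm t₁ ht1).continuous.sub continuous_const)
  have key : ∀ η > 0, u p t₀ ≤ l + b * (t₀ - t₁)
      + 1 / 4 / (t₀ - t₁) * (∫ q, max 0 (u q t₁ - l) ∂muM 2 F c χ t₁
        + (muM 2 F c χ t₁).real univ * η) := by
    intro η hη
    obtain ⟨hw, hw2⟩ := hEVC N M J F hS.mcf.toIsImmJ u (ps η) (fun t => -b * (t - t₁) - l)
      (fun _ => -b) hE (ps_smooth hη) (fun t _ => by
        have h := (((hasDerivAt_id t).sub_const t₁).const_mul (-b)).sub_const l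
        simpa using h) continuousOn_const
    have h1 := hMVI N M J F c χ hS (fun q t => ps η (u q t + (-b * (t - t₁) - l))) 0 t₁ t₀ hw
      le_rfl ht hJ (fun q t _ => (le_max_left 0 _).trans (ps_lower η _)) (fun q t htI => by
        rw [(hw2 q t (hJ htI)).2]
        have a1 := mul_nonneg (ps_deriv_nn hη (u q t + (-b * (t - t₁) - l)))
          (sub_nonneg.2 (hb q t htI))
        have a2 := mul_nonneg (ps_deriv2_nn hη (u q t + (-b * (t - t₁) - l)))
          (sq_nonneg ‖gdM 2 F t (fun q => u q t) q‖)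
        nlinarith) p
    rw [zero_mul, Real.exp_zero, mul_one] at h1
    have h2 : u p t₀ + (-b * (t₀ - t₁) - l) ≤ ps η (u p t₀ + (-b * (t₀ - t₁) - l)) :=
      (le_max_right 0 _).trans (ps_lower η _)
    have h3 : ∫ q, ps η (u q t₁ + (-b * (t₁ - t₁) - l)) *
        Real.exp (-(‖F q t₁ - F p t₀‖ ^ 2 / (8 * (t₀ - t₁)))) ∂muM 2 F c χ t₁ ≤
        ∫ q, (max 0 (u q t₁ - l) + η) ∂muM 2 F c χ t₁ := by
      refine integral_mono_of_nonneg (Eventually.of_forall fun q => ?_)
        (hint _ (hcont.add continuous_const)).1 (Eventually.of_forall fun q => ?_)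
      · exact mul_nonneg ((le_max_left 0 _).trans (ps_lower η _)) (Real.exp_pos _).le
      · show ps η (u q t₁ + (-b * (t₁ - t₁) - l)) * _ ≤ _
        have e : u q t₁ + (-b * (t₁ - t₁) - l) = u q t₁ - l := by ring
        rw [e]
        have h4 : Real.exp (-(‖F q t₁ - F p t₀‖ ^ 2 / (8 * (t₀ - t₁)))) ≤ 1 := by
          rw [Real.exp_le_one_iff, neg_nonpos]
          have : 0 < t₀ - t₁ := by linarith
          positivity
        have h5 : 0 ≤ ps η (u q t₁ - l) := (le_max_left 0 _).trans (ps_lower η _)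
        calc ps η (u q t₁ - l) * Real.exp (-(‖F q t₁ - F p t₀‖ ^ 2 / (8 * (t₀ - t₁))))
            ≤ ps η (u q t₁ - l) * 1 := mul_le_mul_of_nonneg_left h4 h5
          _ ≤ max 0 (u q t₁ - l) + η := by rw [mul_one]; exact ps_upper hη _
    rw [integral_add (hint _ hcont).1 (hint _ continuous_const).1, integral_const,
      smul_eq_mul] at h3
    have h6 := mul_le_mul_of_nonneg_left h3 hK.le
    linarith
  refine le_of_forall_pos_le_add fun ε hε => ?_
  have hC : 0 ≤ (muM 2 F c χ t₁).real univ := measureReal_nonneg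
  obtain ⟨D, hD⟩ : ∃ D, D = 1 / 4 / (t₀ - t₁) * (muM 2 F c χ t₁).real univ := ⟨_, rfl⟩
  have hD0 : 0 ≤ D := by rw [hD]; positivity
  have h1 := key (ε / (D + 1)) (by positivity)
  have h2 : 1 / 4 / (t₀ - t₁) * ((muM 2 F c χ t₁).real univ * (ε / (D + 1))) ≤ ε := by
    rw [← mul_assoc, ← hD, mul_div_assoc', div_le_iff₀ (by positivity)]
    nlinarith
  rw [mul_add] at h1
  linarith

end Helper45.MS
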